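import Pool.Agent.Helper10.RC.Basic

/-! Packet RC-Min: a minimal projection of a commutant compresses it to scalars. -/

open scoped ENNReal NNReal InnerProductSpace ComplexOrder
open Filter Topology

attribute [-instance] CStarMatrix.instAlgebra CStarMatrix.instModule CStarMatrix.instSMul
  CStarMatrix.instMulAction CStarMatrix.instDistribMulAction

noncomputable section
namespace RC
universe u

section
variable {H : Type u} [NormedAddCommGroup H] [InnerProductSpace ℂ H] [CompleteSpace H]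

theorem min_comm_pos {S : Set (H →L[ℂ] H)} {Y : H →L[ℂ] H} (hY : Y ∈ S.centralizer) :
    Y⁺ ∈ S.centralizer ∧ Y⁻ ∈ S.centralizer := by
  constructor
  · intro s hs
    have h1 : Commute Y s := (hY s hs).symm
    exact (h1.cfcₙ_real _).symm
  · intro s hs
    have h1 : Commute Y s := (hY s hs).symm
    exact (h1.cfcₙ_real _).symm

theorem min_dich (h : PolarP.{u}) (S : Set (H →L[ℂ] H)) (hS : ∀ x ∈ S, star x ∈ S)
    (f : H →L[ℂ] H) (_ : f ∈ S.centralizer) (hfp : IsStarProjection f)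
    (hm : ∀ g ∈ S.centralizer, IsStarProjection g → f * g = g → g = 0 ∨ g = f)
    (Y : H →L[ℂ] H) (hYN : Y ∈ S.centralizer) (hY : IsSelfAdjoint Y) (hfY : f * Y = Y) :
    Y⁺ = 0 ∨ Y⁻ = 0 := by
  have hpn : Y⁺ * Y⁻ = 0 := CFC.posPart_mul_negPart Y
  have hnp : Y⁻ * Y⁺ = 0 := CFC.negPart_mul_posPart Y
  have hsub : Y⁺ - Y⁻ = Y := CFC.posPart_sub_negPart Y hY
  have hp : IsSelfAdjoint Y⁺ := (CFC.posPart_nonneg Y).isSelfAdjoint
  have hn : IsSelfAdjoint Y⁻ := (CFC.negPart_nonneg Y).isSelfAdjoint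
  have hfs : star f = f := hfp.isSelfAdjoint
  have hgY : (1 - f) * Y = 0 := by rw [sub_mul, one_mul, hfY, sub_self]
  have h1 : (1 - f) * Y⁺ = (1 - f) * Y⁻ := by
    rw [← sub_eq_zero, ← mul_sub, hsub, hgY]
  have h2 : (1 - f) * Y⁺ = 0 := by
    have h3 : ((1 - f) * Y⁺) * star ((1 - f) * Y⁺) = 0 := by
      rw [star_mul, hp.star_eq]
      calc (1 - f) * Y⁺ * (Y⁺ * star (1 - f)) = ((1 - f) * Y⁺) * Y⁺ * star (1 - f) := by
            noncomm_ring
        _ = ((1 - f) * Y⁻) * Y⁺ * star (1 - f) := by rw [h1]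
        _ = (1 - f) * (Y⁻ * Y⁺) * star (1 - f) := by noncomm_ring
        _ = 0 := by rw [hnp]; simp
    exact (CStarRing.mul_star_self_eq_zero_iff _).mp h3
  have h2' : (1 - f) * Y⁻ = 0 := by rw [← h1, h2]
  have hYf : Y⁻ * f = Y⁻ := by
    have := congrArg star h2'
    rw [star_mul, hn.star_eq, star_sub, star_one, hfs, star_zero, mul_sub, mul_one,
      sub_eq_zero] at this
    exact this.symm
  obtain ⟨v, hv, hr, _, hrT, _, hann, _⟩ := h H S hS Y⁺ (min_comm_pos hYN).1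
  have hrN : v * star v ∈ S.centralizer :=
    Set.mul_mem_centralizer hv (Set.star_mem_centralizer' hS hv)
  have hfr : f * (v * star v) = v * star v := by
    have h4 := hann (1 - f) h2
    rw [sub_mul, one_mul, sub_eq_zero] at h4
    exact h4.symm
  rcases hm _ hrN hr hfr with h5 | h5
  · left
    rw [h5, zero_mul] at hrT
    exact hrT.symm
  · right
    have h6 := hann Y⁻ hnp
    rw [h5, hYf] at h6
    exact h6

theorem min_sa (h : PolarP.{u}) (S : Set (H →L[ℂ] H)) (hS : ∀ x ∈ S, star x ∈ S)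
    (f : H →L[ℂ] H) (hf : f ∈ S.centralizer) (hfp : IsStarProjection f)
    (hm : ∀ g ∈ S.centralizer, IsStarProjection g → f * g = g → g = 0 ∨ g = f)
    (x : H →L[ℂ] H) (hx : x ∈ S.centralizer) (hxs : IsSelfAdjoint x) :
    ∃ c : ℂ, f * x * f = c • f := by
  by_cases hf0 : f = 0
  · exact ⟨0, by rw [hf0]; simp⟩
  have hfs : star f = f := hfp.isSelfAdjoint
  have hff : f * f = f := hfp.isIdempotentElem
  set X : H →L[ℂ] H := f * x * f with hX
  have hXs : IsSelfAdjoint X := by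
    rw [IsSelfAdjoint, hX, star_mul, star_mul, hfs, hxs.star_eq, mul_assoc]
  have hXN : X ∈ S.centralizer :=
    Set.mul_mem_centralizer (Set.mul_mem_centralizer hf hx) hf
  have hfX : f * X = X := by rw [hX, ← mul_assoc, ← mul_assoc, hff]
  -- the dichotomy
  have key : ∀ a : ℝ, (∀ ζ : H, (⟪X ζ, ζ⟫_ℂ).re ≤ a * (⟪f ζ, ζ⟫_ℂ).re) ∨
      (∀ ζ : H, a * (⟪f ζ, ζ⟫_ℂ).re ≤ (⟪X ζ, ζ⟫_ℂ).re) := by
    intro a
    have hYs : IsSelfAdjoint (X - (a : ℂ) • f) := by
      rw [IsSelfAdjoint, star_sub, star_smul, hXs.star_eq, hfs, Complex.star_def,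
        Complex.conj_ofReal]
    have hYN : X - (a : ℂ) • f ∈ S.centralizer := by
      intro s hs
      rw [mul_sub, sub_mul, hXN s hs, mul_smul_comm, smul_mul_assoc, hf s hs]
    have hfY : f * (X - (a : ℂ) • f) = X - (a : ℂ) • f := by
      rw [mul_sub, hfX, mul_smul_comm, hff]
    have hin : ∀ ζ : H, (⟪(X - (a : ℂ) • f) ζ, ζ⟫_ℂ).re =
        (⟪X ζ, ζ⟫_ℂ).re - a * (⟪f ζ, ζ⟫_ℂ).re := by
      intro ζ
      rw [sub_apply, smul_apply, inner_sub_left,
        inner_smul_left, Complex.conj_ofReal, Complex.sub_re, Complex.re_ofReal_mul]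
    have hsub : (X - (a : ℂ) • f)⁺ - (X - (a : ℂ) • f)⁻ = X - (a : ℂ) • f :=
      CFC.posPart_sub_negPart _ hYs
    rcases min_dich h S hS f hf hfp hm _ hYN hYs hfY with h1 | h1
    · left
      intro ζ
      have h2 : 0 ≤ (X - (a : ℂ) • f)⁻ := CFC.negPart_nonneg _
      rw [ContinuousLinearMap.nonneg_iff_isPositive] at h2
      have h3 := h2.re_inner_nonneg_left ζ
      have h4 := hin ζ
      rw [← hsub, h1, zero_sub, neg_apply, inner_neg_left,
        Complex.neg_re] at h4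
      have h5 : (0 : ℝ) ≤ (⟪(X - (a : ℂ) • f)⁻ ζ, ζ⟫_ℂ).re := h3
      linarith
    · right
      intro ζ
      have h2 : 0 ≤ (X - (a : ℂ) • f)⁺ := CFC.posPart_nonneg _
      rw [ContinuousLinearMap.nonneg_iff_isPositive] at h2
      have h3 := h2.re_inner_nonneg_left ζ
      have h4 := hin ζ
      rw [← hsub, h1, sub_zero] at h4
      have h5 : (0 : ℝ) ≤ (⟪(X - (a : ℂ) • f)⁺ ζ, ζ⟫_ℂ).re := h3
      linarith
  obtain ⟨ζ0, hζ0⟩ : ∃ ζ, f ζ ≠ 0 := by
    by_contra hc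
    push Not at hc
    exact hf0 (ContinuousLinearMap.ext hc)
  have hp0 : 0 < (⟪f ζ0, ζ0⟫_ℂ).re := by
    have h1 : ⟪f ζ0, ζ0⟫_ℂ = ⟪f ζ0, f ζ0⟫_ℂ := by
      have h2 : f ζ0 = star f (f ζ0) := by
        rw [hfs]
        exact (congrArg (fun T : H →L[ℂ] H => T ζ0) hff).symm
      conv_lhs => rw [h2]
      rw [ContinuousLinearMap.star_eq_adjoint, ContinuousLinearMap.adjoint_inner_left]
    rw [h1]
    have h3 : (⟪f ζ0, f ζ0⟫_ℂ).re = ‖f ζ0‖ ^ 2 := by
      rw [inner_self_eq_norm_sq_to_K]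
      norm_cast
    rw [h3]
    positivity
  set c : ℝ := (⟪X ζ0, ζ0⟫_ℂ).re / (⟪f ζ0, ζ0⟫_ℂ).re with hc
  have hcq : (⟪X ζ0, ζ0⟫_ℂ).re = c * (⟪f ζ0, ζ0⟫_ℂ).re := by
    rw [hc]; field_simp
  have up : ∀ a : ℝ, c < a → ∀ ζ : H, (⟪X ζ, ζ⟫_ℂ).re ≤ a * (⟪f ζ, ζ⟫_ℂ).re := by
    intro a ha
    rcases key a with h1 | h1
    · exact h1
    · exfalso
      have := h1 ζ0
      rw [hcq] at this
      nlinarith
  have dn : ∀ a : ℝ, a < c → ∀ ζ : H, a * (⟪f ζ, ζ⟫_ℂ).re ≤ (⟪X ζ, ζ⟫_ℂ).re := by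
    intro a ha
    rcases key a with h1 | h1
    · exfalso
      have := h1 ζ0
      rw [hcq] at this
      nlinarith
    · exact h1
  have heq : ∀ ζ : H, (⟪X ζ, ζ⟫_ℂ).re = c * (⟪f ζ, ζ⟫_ℂ).re := by
    intro ζ
    apply le_antisymm
    · refine le_of_forall_pos_lt_add fun ε hε => ?_
      have hd : 0 < |(⟪f ζ, ζ⟫_ℂ).re| + 1 := by positivity
      have h1 := up (c + ε / (|(⟪f ζ, ζ⟫_ℂ).re| + 1)) (by
        have : 0 < ε / (|(⟪f ζ, ζ⟫_ℂ).re| + 1) := by positivity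
        linarith) ζ
      have h2 : ε / (|(⟪f ζ, ζ⟫_ℂ).re| + 1) * (⟪f ζ, ζ⟫_ℂ).re < ε := by
        rw [div_mul_eq_mul_div, div_lt_iff₀ hd]
        have := le_abs_self (⟪f ζ, ζ⟫_ℂ).re
        nlinarith
      linarith
    · refine le_of_forall_pos_lt_add fun ε hε => ?_
      have hd : 0 < |(⟪f ζ, ζ⟫_ℂ).re| + 1 := by positivity
      have h1 := dn (c - ε / (|(⟪f ζ, ζ⟫_ℂ).re| + 1)) (by
        have : 0 < ε / (|(⟪f ζ, ζ⟫_ℂ).re| + 1) := by positivity
        linarith) ζ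
      have h2 : ε / (|(⟪f ζ, ζ⟫_ℂ).re| + 1) * (⟪f ζ, ζ⟫_ℂ).re < ε := by
        rw [div_mul_eq_mul_div, div_lt_iff₀ hd]
        have := le_abs_self (⟪f ζ, ζ⟫_ℂ).re
        nlinarith
      linarith
  refine ⟨(c : ℂ), ?_⟩
  have hDs : IsSelfAdjoint (X - (c : ℂ) • f) := by
    rw [IsSelfAdjoint, star_sub, star_smul, hXs.star_eq, hfs, Complex.star_def,
      Complex.conj_ofReal]
  rw [← sub_eq_zero]
  have hz : ∀ ζ : H, ⟪(X - (c : ℂ) • f) ζ, ζ⟫_ℂ = 0 := by
    intro ζ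
    have him : (starRingEnd ℂ) ⟪(X - (c : ℂ) • f) ζ, ζ⟫_ℂ = ⟪(X - (c : ℂ) • f) ζ, ζ⟫_ℂ := by
      rw [inner_conj_symm]
      conv_rhs => rw [← hDs.star_eq]
      rw [ContinuousLinearMap.star_eq_adjoint, ContinuousLinearMap.adjoint_inner_left]
    have hre : (⟪(X - (c : ℂ) • f) ζ, ζ⟫_ℂ).re = 0 := by
      rw [sub_apply, smul_apply, inner_sub_left,
        inner_smul_left, Complex.conj_ofReal, Complex.sub_re, Complex.re_ofReal_mul, heq ζ,
        sub_self]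
    rw [Complex.conj_eq_iff_im] at him
    exact Complex.ext hre him
  have := (inner_map_self_eq_zero ((X - (c : ℂ) • f : H →L[ℂ] H) : H →ₗ[ℂ] H)).mp hz
  exact ContinuousLinearMap.ext fun ζ => congrArg (fun T : H →ₗ[ℂ] H => T ζ) this

end

theorem minP (h : PolarP.{u}) : MinP.{u} := by
  intro H _ _ _ S hS f hf hfp hm x hx
  have hsx : star x ∈ S.centralizer := Set.star_mem_centralizer' hS hx
  have h1 : ∀ a b : ℂ, a • x + b • star x ∈ S.centralizer := by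
    intro a b s hs
    rw [mul_add, add_mul, mul_smul_comm, mul_smul_comm, smul_mul_assoc, smul_mul_assoc,
      hx s hs, hsx s hs]
  have h2 : IsSelfAdjoint ((1 / 2 : ℂ) • x + (1 / 2 : ℂ) • star x) := by
    rw [IsSelfAdjoint, star_add, star_smul, star_smul, star_star, add_comm]
    simp
  have h3 : IsSelfAdjoint ((-Complex.I / 2 : ℂ) • x + (Complex.I / 2 : ℂ) • star x) := by
    rw [IsSelfAdjoint, star_add, star_smul, star_smul, star_star, add_comm]
    congr 2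
    · simp
    · simp
  obtain ⟨c1, hc1⟩ := min_sa h S hS f hf hfp hm _ (h1 _ _) h2
  obtain ⟨c2, hc2⟩ := min_sa h S hS f hf hfp hm _ (h1 _ _) h3
  refine ⟨c1 + Complex.I * c2, ?_⟩
  have h4 : x = ((1 / 2 : ℂ) • x + (1 / 2 : ℂ) • star x) +
      Complex.I • ((-Complex.I / 2 : ℂ) • x + (Complex.I / 2 : ℂ) • star x) := by
    have e1 : Complex.I * (-Complex.I / 2) = 1 / 2 := by
      linear_combination (-1 / 2 : ℂ) * Complex.I_mul_I
    have e2 : Complex.I * (Complex.I / 2) = -(1 / 2) := by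
      linear_combination (1 / 2 : ℂ) * Complex.I_mul_I
    rw [smul_add, smul_smul, smul_smul, e1, e2]
    module
  calc f * x * f = f * (((1 / 2 : ℂ) • x + (1 / 2 : ℂ) • star x) +
      Complex.I • ((-Complex.I / 2 : ℂ) • x + (Complex.I / 2 : ℂ) • star x)) * f := by rw [← h4]
    _ = f * ((1 / 2 : ℂ) • x + (1 / 2 : ℂ) • star x) * f +
      Complex.I • (f * ((-Complex.I / 2 : ℂ) • x + (Complex.I / 2 : ℂ) • star x) * f) := by
        rw [mul_add, add_mul, mul_smul_comm, smul_mul_assoc]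
    _ = (c1 + Complex.I * c2) • f := by
        rw [hc1, hc2, smul_smul, add_smul]

end RC
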